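import Pool.Agent.Y554.NE.Stm
import Pool.Agent.Y179.SN.Sum
import Pool.Agent.Y908.SN.SumhCore

/-! Project NE: task SUMA (helper433). -/

set_option autoImplicit false

namespace Pool.Agent.Y433.NE

open H974 H12S H985T H389NS Finset Pool.Agent.Y554.DP Pool.Agent.Y554.SN Pool.Agent.Y554.NE
open Pool.Agent.Y179.SN (X X_pos)

/-- the one-dimensional sum -/
theorem line2 {n D : ℕ} (hD : 1 ≤ D) (hDn : D ≤ n) (w : ℤ) (A : Finset ℤ)
    (hA : ∀ a ∈ A, |a| ≤ n ∧ |a - w| ≤ 2 * D) :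
    ∑ a ∈ A, (X n 1 D a : ℝ) ^ (-(11 / 24) : ℝ) ≤ 11 * (D : ℝ) ^ (13 / 24 : ℝ) := by
  classical
  have hD0 : (0 : ℝ) < D := by exact_mod_cast hD
  rw [← sum_filter_add_sum_filter_not A fun a => (D : ℤ) ≤ (n : ℤ) - |a|,
    ← sum_filter_add_sum_filter_not (A.filter fun a => ¬ (D : ℤ) ≤ (n : ℤ) - |a|) fun a => 0 ≤ a]
  have h1 : ∑ a ∈ A.filter (fun a => (D : ℤ) ≤ (n : ℤ) - |a|), (X n 1 D a : ℝ) ^ (-(11 / 24) : ℝ) ≤
      5 * (D : ℝ) ^ (13 / 24 : ℝ) := by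
    have h2 : ∀ a ∈ A.filter (fun a => (D : ℤ) ≤ (n : ℤ) - |a|),
        (X n 1 D a : ℝ) ^ (-(11 / 24) : ℝ) = (D : ℝ) ^ (-(11 / 24) : ℝ) := by
      intro a ha
      have h3 := (mem_filter.1 ha).2
      have h4 : X n 1 D a = D := by
        unfold X
        omega
      rw [h4]
    rw [sum_congr rfl h2, sum_const, nsmul_eq_mul]
    have h5 : ((A.filter (fun a => (D : ℤ) ≤ (n : ℤ) - |a|)).card : ℝ) ≤ 5 * D := by
      have h6 : (A.filter (fun a => (D : ℤ) ≤ (n : ℤ) - |a|)).card ≤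
          (Icc (w - 2 * D) (w + 2 * D)).card := by
        refine card_le_card fun a ha => ?_
        have := (hA a (mem_filter.1 ha).1).2
        rw [abs_le] at this
        rw [mem_Icc]
        constructor <;> linarith
      rw [Int.card_Icc] at h6
      have h7 : (A.filter (fun a => (D : ℤ) ≤ (n : ℤ) - |a|)).card ≤ 5 * D := by omega
      exact_mod_cast h7
    have h6 : (D : ℝ) ^ (13 / 24 : ℝ) = D * (D : ℝ) ^ (-(11 / 24) : ℝ) := by
      nth_rewrite 2 [← Real.rpow_one (D : ℝ)]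
      rw [← Real.rpow_add hD0]
      norm_num
    rw [h6, ← mul_assoc]
    exact mul_le_mul_of_nonneg_right h5 (by positivity)
  have hside : ∀ B : Finset ℤ, (∀ a ∈ B, |a| ≤ n ∧ (n : ℤ) - |a| < D) →
      ((∀ a ∈ B, 0 ≤ a) ∨ ∀ a ∈ B, a < 0) →
      ∑ a ∈ B, (X n 1 D a : ℝ) ^ (-(11 / 24) : ℝ) ≤ 3 * (D : ℝ) ^ (13 / 24 : ℝ) := by
    intro B hB hs
    have h := Pool.Agent.Y908.SN.side (n := n) (r := 1) (β := D) (13 / 24) (by norm_num)
      (by norm_num) (le_refl 1) hD hDn B (fun a ha => ⟨(hB a ha).1, (hB a ha).2.le, by simp⟩) hs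
    have h2 : ∀ a ∈ B, (X n 1 D a : ℝ) ^ (-(11 / 24) : ℝ) =
        (Pool.Agent.Y908.SN.XX n 1 a : ℝ) ^ (13 / 24 - 1 : ℝ) := by
      intro a ha
      have h3 := hB a ha
      have h4 : X n 1 D a = Pool.Agent.Y908.SN.XX n 1 a := by
        unfold X Pool.Agent.Y908.SN.XX
        omega
      rw [h4]
      norm_num
    rw [sum_congr rfl h2]
    refine h.trans ?_
    have h3 : 0 ≤ (D : ℝ) ^ (13 / 24 : ℝ) := by positivity
    rw [Nat.cast_one, div_one]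
    refine mul_le_mul_of_nonneg_right (by norm_num) h3
  have h2 := hside ((A.filter fun a => ¬ (D : ℤ) ≤ (n : ℤ) - |a|).filter
      fun a => 0 ≤ a) (fun a ha => by
      have h3 := mem_filter.1 (mem_filter.1 ha).1
      exact ⟨(hA a h3.1).1, not_le.1 h3.2⟩) (Or.inl fun a ha => (mem_filter.1 ha).2)
  have h3 := hside ((A.filter fun a => ¬ (D : ℤ) ≤ (n : ℤ) - |a|).filter
      fun a => ¬ 0 ≤ a) (fun a ha => by
      have h3 := mem_filter.1 (mem_filter.1 ha).1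
      exact ⟨(hA a h3.1).1, not_le.1 h3.2⟩) (Or.inr fun a ha => not_le.1 (mem_filter.1 ha).2)
  linarith

/-- the bound of the kernel -/
theorem q1_le {n D E : ℕ} (hD : 1 ≤ D) (hDE : D ≤ E) (c : ℤ × ℤ) :
    q1 n c 1 E ≤ (D : ℝ) ^ (-(1 / 3) : ℝ) *
      ((X n 1 D c.1 : ℝ) ^ (-(11 / 24) : ℝ) * (X n 1 D c.2 : ℝ) ^ (-(11 / 24) : ℝ)) := by
  have hD0 : (0 : ℝ) < D := by exact_mod_cast hD
  have hE1 : 1 ≤ E := hD.trans hDE
  have h := Pool.Agent.Y179.SN.qc_le (n := n) (le_refl 1) hE1 c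
  have hX : ∀ a, (0 : ℝ) < X n 1 D a := fun a => by exact_mod_cast X_pos (le_refl 1) hD a
  have hXX : ∀ a, (X n 1 D a : ℝ) ≤ X n 1 E a := by
    intro a
    have : X n 1 D a ≤ X n 1 E a := by
      unfold X
      omega
    exact_mod_cast this
  have h2 : qc n c 1 E ≤ (D : ℝ) ^ (-(2 / 3) : ℝ) *
      ((X n 1 D c.1 : ℝ) ^ (-(11 / 12) : ℝ) * (X n 1 D c.2 : ℝ) ^ (-(11 / 12) : ℝ)) := by
    refine h.trans ?_
    rw [Nat.cast_one, Real.one_rpow, one_mul]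
    have e1 : (E : ℝ) ^ (-(2 / 3) : ℝ) ≤ (D : ℝ) ^ (-(2 / 3) : ℝ) :=
      Real.rpow_le_rpow_of_nonpos hD0 (by exact_mod_cast hDE) (by norm_num)
    have e2 : (X n 1 E c.1 : ℝ) ^ (-(11 / 12) : ℝ) ≤ (X n 1 D c.1 : ℝ) ^ (-(11 / 12) : ℝ) :=
      Real.rpow_le_rpow_of_nonpos (hX _) (hXX _) (by norm_num)
    have e3 : (X n 1 E c.2 : ℝ) ^ (-(11 / 12) : ℝ) ≤ (X n 1 D c.2 : ℝ) ^ (-(11 / 12) : ℝ) :=
      Real.rpow_le_rpow_of_nonpos (hX _) (hXX _) (by norm_num)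
    gcongr
  have hq0 : 0 ≤ qc n c 1 E := by
    unfold qc
    positivity
  unfold q1
  refine (Real.rpow_le_rpow hq0 h2 (by norm_num)).trans (le_of_eq ?_)
  rw [Real.mul_rpow (by positivity) (by positivity), Real.mul_rpow (by positivity) (by positivity),
    ← Real.rpow_mul hD0.le, ← Real.rpow_mul (hX _).le, ← Real.rpow_mul (hX _).le]
  norm_num

theorem geo (J : ℕ) : ∑ j ∈ range (J + 1), (((2 : ℕ) ^ j : ℕ) : ℝ) ^ (3 / 4 : ℝ) ≤
    4 * (((2 : ℕ) ^ J : ℕ) : ℝ) ^ (3 / 4 : ℝ) := by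
  have hρ : (4 / 3 : ℝ) ≤ (2 : ℝ) ^ (3 / 4 : ℝ) := by
    have h1 : (4 / 3 : ℝ) = ((4 / 3 : ℝ) ^ (4 : ℝ)) ^ (1 / 4 : ℝ) := by
      rw [← Real.rpow_mul (by norm_num)]
      norm_num
    have h2 : (2 : ℝ) ^ (3 / 4 : ℝ) = ((2 : ℝ) ^ (3 : ℝ)) ^ (1 / 4 : ℝ) := by
      rw [← Real.rpow_mul (by norm_num)]
      norm_num
    rw [h1, h2]
    refine Real.rpow_le_rpow (by positivity) ?_ (by norm_num)
    norm_num
  induction J with
  | zero => simp
  | succ J ih =>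
    rw [sum_range_succ]
    have h3 : (((2 : ℕ) ^ (J + 1) : ℕ) : ℝ) ^ (3 / 4 : ℝ) =
        (((2 : ℕ) ^ J : ℕ) : ℝ) ^ (3 / 4 : ℝ) * (2 : ℝ) ^ (3 / 4 : ℝ) := by
      rw [← Real.mul_rpow (by positivity) (by norm_num)]
      congr 1
      push_cast
      ring
    have h4 : 0 ≤ (((2 : ℕ) ^ J : ℕ) : ℝ) ^ (3 / 4 : ℝ) := by positivity
    rw [h3]
    nlinarith

theorem suma : S_SUMA := by
  classical
  refine ⟨968, by norm_num, ?_⟩
  intro n m z hz hm hmn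
  set V := (boxE n).filter (fun y => ds y z ≤ m) with hV
  set J := Nat.log 2 m with hJ
  have h2J : 2 ^ J ≤ m := Nat.pow_log_le_self 2 (by omega)
  have hmaps : ∀ y ∈ V, Nat.log 2 (max 1 (ds y z)) ∈ range (J + 1) := by
    intro y hy
    rw [hV, mem_filter] at hy
    rw [mem_range, Nat.lt_succ_iff, hJ]
    exact Nat.log_mono_right (max_le hm hy.2)
  rw [← sum_fiberwise_of_maps_to hmaps]
  have hone : ∀ j ∈ range (J + 1), ∑ y ∈ V.filter (fun y => Nat.log 2 (max 1 (ds y z)) = j),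
      psi n y (ds y z) ≤ 242 * (((2 : ℕ) ^ j : ℕ) : ℝ) ^ (3 / 4 : ℝ) := by
    intro j hj
    rw [mem_range, Nat.lt_succ_iff] at hj
    set D := 2 ^ j with hDdef
    have hD : 1 ≤ D := Nat.one_le_two_pow
    have hDm : D ≤ m := (Nat.pow_le_pow_right (by norm_num) hj).trans h2J
    have hDn : D ≤ n := hDm.trans hmn
    have hD0 : (0 : ℝ) < D := by exact_mod_cast hD
    set G := V.filter (fun y => Nat.log 2 (max 1 (ds y z)) = j) with hG
    have hGp : ∀ y ∈ G, (|y.1| ≤ n ∧ |y.1 - z.1| ≤ 2 * D) ∧ (|y.2.1| ≤ n ∧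
        |y.2.1 - z.2.1| ≤ 2 * D) ∧ D ≤ cap n (ds y z) := by
      intro y hy
      rw [hG, mem_filter, hV, mem_filter] at hy
      obtain ⟨⟨h1, h2⟩, h3⟩ := hy
      have hb := mem_boxE_bounds (x := y.1) (y := y.2.1) (b := y.2.2) h1
      have h4 : max 1 (ds y z) < 2 ^ (j + 1) := by
        rw [← h3]
        exact Nat.lt_pow_succ_log_self (by norm_num) _
      have h5 : D ≤ max 1 (ds y z) := by
        rw [hDdef, ← h3]
        exact Nat.pow_log_le_self 2 (by omega)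
      have h6 : 2 ^ (j + 1) = 2 * D := by rw [hDdef]; ring
      have h7 : ds y z ≤ 2 * D := by omega
      have h8 : (y.1 - z.1).natAbs ≤ ds y z := le_max_left _ _
      have h9 : (y.2.1 - z.2.1).natAbs ≤ ds y z := le_max_right _ _
      refine ⟨⟨?_, ?_⟩, ⟨?_, ?_⟩, ?_⟩
      · rw [abs_le]; omega
      · rw [abs_le]; omega
      · rw [abs_le]; omega
      · rw [abs_le]; omega
      · unfold cap
        omega
    have hbd : ∀ y ∈ G, psi n y (ds y z) ≤ (D : ℝ) ^ (-(1 / 3) : ℝ) *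
        ((X n 1 D y.1 : ℝ) ^ (-(11 / 24) : ℝ) * (X n 1 D y.2.1 : ℝ) ^ (-(11 / 24) : ℝ)) := by
      intro y hy
      exact q1_le (n := n) hD (hGp y hy).2.2 (pos y)
    have hsub : G ⊆ (G.image Prod.fst) ×ˢ ((G.image fun y => y.2.1) ×ˢ (univ : Finset Bool)) := by
      intro y hy
      rw [mem_product, mem_product]
      exact ⟨mem_image_of_mem _ hy, mem_image_of_mem (fun y : Edg => y.2.1) hy, mem_univ _⟩
    have l1 := line2 hD hDn z.1 (G.image Prod.fst) (fun a ha => by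
      obtain ⟨y, hy, rfl⟩ := mem_image.1 ha
      exact (hGp y hy).1)
    have l2 := line2 hD hDn z.2.1 (G.image fun y => y.2.1) (fun a ha => by
      obtain ⟨y, hy, rfl⟩ := mem_image.1 ha
      exact (hGp y hy).2.1)
    set f : ℤ → ℝ := fun a => (X n 1 D a : ℝ) ^ (-(11 / 24) : ℝ) with hf
    have hf0 : ∀ a, 0 ≤ f a := fun a => by positivity
    calc ∑ y ∈ G, psi n y (ds y z) ≤ ∑ y ∈ G, (D : ℝ) ^ (-(1 / 3) : ℝ) * (f y.1 * f y.2.1) :=
          sum_le_sum hbd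
      _ ≤ ∑ y ∈ (G.image Prod.fst) ×ˢ ((G.image fun y => y.2.1) ×ˢ (univ : Finset Bool)),
          (D : ℝ) ^ (-(1 / 3) : ℝ) * (f y.1 * f y.2.1) :=
          sum_le_sum_of_subset_of_nonneg hsub fun y _ _ =>
            mul_nonneg (by positivity) (mul_nonneg (hf0 _) (hf0 _))
      _ = 2 * ((D : ℝ) ^ (-(1 / 3) : ℝ) * ((∑ a ∈ G.image Prod.fst, f a) *
          ∑ a ∈ G.image (fun y => y.2.1), f a)) := by
          rw [← mul_sum, sum_product]
          simp only [sum_product, sum_const, card_univ, Fintype.card_bool, nsmul_eq_mul]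
          rw [sum_mul_sum]
          simp only [← mul_sum]
          push_cast
          ring
      _ ≤ 2 * ((D : ℝ) ^ (-(1 / 3) : ℝ) * ((11 * (D : ℝ) ^ (13 / 24 : ℝ)) *
          (11 * (D : ℝ) ^ (13 / 24 : ℝ)))) := by
          refine mul_le_mul_of_nonneg_left (mul_le_mul_of_nonneg_left ?_ (by positivity))
            (by norm_num)
          exact mul_le_mul l1 l2 (sum_nonneg fun _ _ => hf0 _) (by positivity)
      _ = 242 * (D : ℝ) ^ (3 / 4 : ℝ) := by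
          have e : (D : ℝ) ^ (3 / 4 : ℝ) = (D : ℝ) ^ (-(1 / 3) : ℝ) * ((D : ℝ) ^ (13 / 24 : ℝ) *
              (D : ℝ) ^ (13 / 24 : ℝ)) := by
            rw [← Real.rpow_add hD0, ← Real.rpow_add hD0]
            norm_num
          rw [e]
          ring
  refine (sum_le_sum hone).trans ?_
  rw [← mul_sum]
  have h1 := geo J
  have h2 : (((2 : ℕ) ^ J : ℕ) : ℝ) ^ (3 / 4 : ℝ) ≤ (m : ℝ) ^ (3 / 4 : ℝ) :=
    Real.rpow_le_rpow (by positivity) (by exact_mod_cast h2J) (by norm_num)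
  linarith

end Pool.Agent.Y433.NE
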